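import Mathlib

set_option autoImplicit false

namespace Pool.Agent.V1121.Sq

open Classical

section
variable {X : Type} [MulAction (FreeGroup Bool) X]

/-- points with trivial stabiliser -/
def FreePt (x : X) : Prop := ∀ g : FreeGroup Bool, g ≠ 1 → g • x ≠ x

/-- orbit representative -/
noncomputable def rep (x : X) : X :=
  Quotient.out (s := MulAction.orbitRel (FreeGroup Bool) X) (Quotient.mk _ x)

theorem rep_smul (g : FreeGroup Bool) (x : X) : rep (g • x) = rep x := by
  unfold rep
  congr 1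
  exact Quotient.sound ⟨g, rfl⟩

theorem exists_w (x : X) : ∃ g : FreeGroup Bool, g • rep x = x := by
  have h : MulAction.orbitRel (FreeGroup Bool) X (rep x) x :=
    Quotient.exact (Quotient.out_eq (s := MulAction.orbitRel (FreeGroup Bool) X) _)
  obtain ⟨g, hg⟩ := h
  refine ⟨g⁻¹, ?_⟩
  have hg' : g • x = rep x := hg
  rw [← hg', inv_smul_smul]

noncomputable def wd (x : X) : FreeGroup Bool := Classical.choose (exists_w x)

theorem wd_spec (x : X) : wd x • rep x = x := Classical.choose_spec (exists_w x)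

theorem FreePt.smul {x : X} (hx : FreePt x) (g : FreeGroup Bool) : FreePt (g • x) := by
  intro h hh hcon
  refine hx (g⁻¹ * h * g) ?_ ?_
  · intro h1
    apply hh
    have : h = g * (g⁻¹ * h * g) * g⁻¹ := by group
    rw [this, h1]; group
  · rw [mul_smul, mul_smul, hcon, inv_smul_smul]

theorem wd_smul {x : X} (hx : FreePt x) (g : FreeGroup Bool) : wd (g • x) = g * wd x := by
  have h1 : FreePt (rep x) := by
    have : rep x = (wd x)⁻¹ • x := eq_inv_smul_iff.2 (wd_spec x)
    rw [this]; exact hx.smul _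
  by_contra hne
  refine h1 ((g * wd x)⁻¹ * wd (g • x)) ?_ ?_
  · intro h
    exact hne (inv_mul_eq_one.1 h).symm
  · have h2 := wd_spec (g • x)
    rw [rep_smul] at h2
    rw [mul_smul, h2, mul_inv_rev, mul_smul, inv_smul_smul, inv_smul_eq_iff, wd_spec]

/-- The neighbourhood of a finite set. -/
noncomputable def N (H : Finset X) : Finset X :=
  (H ×ˢ (Finset.univ : Finset (Bool × Bool))).image fun p => FreeGroup.mk [p.2] • p.1

theorem three (H : Finset X) (hH : ∀ x ∈ H, FreePt x) : 3 * H.card ≤ (N H).card := by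
  let T : Finset (Σ _ : X, Bool × Bool) := H.sigma fun x =>
    Finset.univ.filter fun s => wd x ∉ FreeGroup.startsWith (s.1, !s.2)
  have hT : 3 * H.card ≤ T.card := by
    rw [Finset.card_sigma, mul_comm, ← smul_eq_mul]
    refine Finset.card_nsmul_le_sum _ _ _ fun x _ => ?_
    have h1 := Finset.card_filter_add_card_filter_not (s := (Finset.univ : Finset (Bool × Bool)))
      (fun s => wd x ∉ FreeGroup.startsWith (s.1, !s.2))
    have h2 : (Finset.univ.filter fun s : Bool × Bool =>
        ¬ (wd x ∉ FreeGroup.startsWith (s.1, !s.2))).card ≤ 1 := by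
      rw [Finset.card_le_one]
      intro s hs s' hs'
      simp only [Finset.mem_filter, Finset.mem_univ, true_and, not_not,
        FreeGroup.startsWith, Set.mem_ofPred_eq] at hs hs'
      rw [hs] at hs'
      have h3 := Option.some.inj hs'
      have h4 := congrArg Prod.fst h3
      have h5 := congrArg Prod.snd h3
      exact Prod.ext h4 (by simpa using h5)
    have h3 : (Finset.univ : Finset (Bool × Bool)).card = 4 := rfl
    omega
  refine hT.trans ?_
  refine Finset.card_le_card_of_injOn (fun p => FreeGroup.mk [p.2] • p.1) ?_ ?_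
  · rintro ⟨x, s⟩ hp
    have hp' := Finset.mem_sigma.1 hp
    exact Finset.mem_image.2 ⟨(x, s), Finset.mem_product.2 ⟨hp'.1, Finset.mem_univ _⟩, rfl⟩
  · rintro ⟨x, s⟩ hp ⟨x', s'⟩ hp' heq
    have h1 := Finset.mem_sigma.1 hp
    have h2 := Finset.mem_sigma.1 hp'
    have heq' : FreeGroup.mk [s] • x = FreeGroup.mk [s'] • x' := heq
    have h3 : wd x ∉ FreeGroup.startsWith (s.1, !s.2) := (Finset.mem_filter.1 h1.2).2
    have h4 : wd x' ∉ FreeGroup.startsWith (s'.1, !s'.2) := (Finset.mem_filter.1 h2.2).2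
    have h5 : wd (FreeGroup.mk [s] • x) ∈ FreeGroup.startsWith s := by
      rw [wd_smul (hH x h1.1)]
      exact FreeGroup.startsWith_mk_mul _ h3
    have h6 : wd (FreeGroup.mk [s'] • x') ∈ FreeGroup.startsWith s' := by
      rw [wd_smul (hH x' h2.1)]
      exact FreeGroup.startsWith_mk_mul _ h4
    rw [heq'] at h5
    have h7 : s = s' := by
      have a1 : _ = some s := h5
      have a2 : _ = some s' := h6
      rw [a1] at a2
      exact Option.some.inj a2
    subst h7
    have h8 : x = x' := by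
      have := congrArg (fun z => (FreeGroup.mk [s])⁻¹ • z) heq'
      simpa only [inv_smul_smul] using this
    subst h8
    rfl

/-- Words with `n` letters. -/
noncomputable def W : ℕ → Finset (FreeGroup Bool)
  | 0 => {1}
  | n + 1 => ((Finset.univ : Finset (Bool × Bool)) ×ˢ W n).image fun p =>
      FreeGroup.mk [p.1] * p.2

theorem expand (n : ℕ) (H : Finset X) (hH : ∀ x ∈ H, FreePt x) :
    3 ^ n * H.card ≤ ((W n ×ˢ H).image fun p => p.1 • p.2).card := by
  induction n with
  | zero =>
    rw [pow_zero, one_mul]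
    refine Finset.card_le_card fun x hx => ?_
    exact Finset.mem_image.2 ⟨(1, x), Finset.mem_product.2 ⟨by simp [W], hx⟩, one_smul _ _⟩
  | succ n ih =>
    set E := (W n ×ˢ H).image fun p => p.1 • p.2 with hE
    have hEf : ∀ x ∈ E, FreePt x := by
      intro x hx
      obtain ⟨p, hp, rfl⟩ := Finset.mem_image.1 hx
      exact (hH _ (Finset.mem_product.1 hp).2).smul _
    have h1 := three E hEf
    have h2 : N E ⊆ (W (n + 1) ×ˢ H).image fun p => p.1 • p.2 := by
      intro y hy
      obtain ⟨⟨x, s⟩, hp, rfl⟩ := Finset.mem_image.1 hy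
      obtain ⟨⟨g, z⟩, hgz, rfl⟩ := Finset.mem_image.1 (Finset.mem_product.1 hp).1
      refine Finset.mem_image.2 ⟨(FreeGroup.mk [s] * g, z), Finset.mem_product.2 ⟨?_,
        (Finset.mem_product.1 hgz).2⟩, mul_smul _ _ _⟩
      exact Finset.mem_image.2 ⟨(s, g), Finset.mem_product.2 ⟨Finset.mem_univ _,
        (Finset.mem_product.1 hgz).1⟩, rfl⟩
    have h3 := Finset.card_le_card h2
    calc 3 ^ (n + 1) * H.card = 3 * (3 ^ n * H.card) := by ring
      _ ≤ 3 * E.card := Nat.mul_le_mul_left 3 ih
      _ ≤ (N E).card := h1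
      _ ≤ _ := h3

theorem expand' (n : ℕ) (H : Finset X) (hH : ∀ x ∈ H, FreePt x) :
    ∃ K : Finset X, 3 ^ n * H.card ≤ K.card ∧ ∀ y ∈ K, ∃ g ∈ W n, ∃ x ∈ H, y = g • x := by
  refine ⟨_, expand n H hH, fun y hy => ?_⟩
  obtain ⟨⟨g, x⟩, hp, rfl⟩ := Finset.mem_image.1 hy
  exact ⟨g, (Finset.mem_product.1 hp).1, x, (Finset.mem_product.1 hp).2, rfl⟩

end

end Pool.Agent.V1121.Sq
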