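import Pool.Agent.V1121.SqFree
import Pool.Agent.V1121.SqExp

set_option autoImplicit false

namespace Pool.Agent.V1121.Sq

open Matrix

/-- The moving matrices. -/
noncomputable def gm : Fin 17 × Bool → Matrix.SpecialLinearGroup (Fin 2) ℝ
  | (j, false) => ⟨!![1 / 2, 0; 1 / 2 - 2 * ((j.val : ℝ) / 16), 2], by
      simp [Matrix.det_fin_two]⟩
  | (j, true) => ⟨!![2, 1 / 2 - 2 * ((j.val : ℝ) / 16); 0, 1 / 2], by
      simp [Matrix.det_fin_two]⟩

/-- The square. -/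
def Q : Set (Fin 2 → ℝ) := {v : Fin 2 → ℝ | ∀ k, 0 < v k ∧ v k < 1}

theorem grid (a b : ℝ) (ha : 0 < a) (hb : 0 < b) (hab : b ≤ a) :
    ∃ j : Fin 17, 0 ≤ 2 * b - 2 * ((j.val : ℝ) / 16) * a ∧
      2 * b - 2 * ((j.val : ℝ) / 16) * a ≤ a / 8 := by
  have h0 : 0 ≤ 16 * b / a := by positivity
  have h1 : (⌊16 * b / a⌋₊ : ℝ) ≤ 16 * b / a := Nat.floor_le h0
  have h2 : 16 * b / a < ⌊16 * b / a⌋₊ + 1 := Nat.lt_floor_add_one _
  have h3 : 16 * b / a ≤ 16 := by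
    rw [div_le_iff₀ ha]; linarith
  have h4 : ⌊16 * b / a⌋₊ < 17 := by
    rw [Nat.floor_lt h0]
    norm_num
    linarith
  refine ⟨⟨_, h4⟩, ?_, ?_⟩
  · rw [le_div_iff₀ ha] at h1
    show 0 ≤ 2 * b - 2 * ((⌊16 * b / a⌋₊ : ℝ) / 16) * a
    nlinarith
  · rw [div_lt_iff₀ ha] at h2
    show 2 * b - 2 * ((⌊16 * b / a⌋₊ : ℝ) / 16) * a ≤ a / 8
    nlinarith

theorem gm_spec (x : Fin 2 → ℝ) (hx : x ∈ Q) : ∃ i, ∃ r : ℝ, 0 < r ∧ r < 1 ∧
    ∀ k, |((gm i : Matrix (Fin 2) (Fin 2) ℝ) *ᵥ x) k - r / 2| ≤ r * (1 / 8) := by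
  have h0 := hx 0
  have h1 := hx 1
  rcases le_total (x 1) (x 0) with h | h
  · obtain ⟨j, hj1, hj2⟩ := grid (x 0) (x 1) h0.1 h1.1 h
    refine ⟨(j, false), x 0, h0.1, h0.2, ?_⟩
    intro k
    rw [abs_le]
    fin_cases k
    · simp only [gm, Matrix.mulVec, dotProduct, Fin.sum_univ_two]
      simp
      constructor <;> linarith
    · simp only [gm, Matrix.mulVec, dotProduct, Fin.sum_univ_two]
      simp
      constructor <;> linarith
  · obtain ⟨j, hj1, hj2⟩ := grid (x 1) (x 0) h1.1 h0.1 h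
    refine ⟨(j, true), x 1, h1.1, h1.2, ?_⟩
    intro k
    rw [abs_le]
    fin_cases k
    · simp only [gm, Matrix.mulVec, dotProduct, Fin.sum_univ_two]
      simp
      constructor <;> linarith
    · simp only [gm, Matrix.mulVec, dotProduct, Fin.sum_univ_two]
      simp
      constructor <;> linarith

theorem lin_bound (p q y0 y1 r e : ℝ) (hr : 0 ≤ r) (h0 : |y0| ≤ r) (h1 : |y1| ≤ r)
    (he : |p| + |q| ≤ e) : |p * y0 + q * y1| ≤ r * e := by
  calc |p * y0 + q * y1| ≤ |p * y0| + |q * y1| := abs_add_le _ _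
    _ = |p| * |y0| + |q| * |y1| := by rw [abs_mul, abs_mul]
    _ ≤ |p| * r + |q| * r := add_le_add (mul_le_mul_of_nonneg_left h0 (abs_nonneg _))
        (mul_le_mul_of_nonneg_left h1 (abs_nonneg _))
    _ = r * (|p| + |q|) := by ring
    _ ≤ r * e := mul_le_mul_of_nonneg_left he hr

theorem step (t : ℝ) (ht0 : 0 < t) (ht : t ≤ 1 / 14) (s : Lt) (y : Fin 2 → ℝ) (r d : ℝ)
    (hr : 0 < r) (hd : d ≤ 3 / 8) (hy : ∀ k, |y k - r / 2| ≤ r * d) (k : Fin 2) :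
    |(m t s *ᵥ y) k - r / 2| ≤ r * (d + 1 / 12) := by
  have hyr : ∀ k, |y k| ≤ r := by
    intro k
    have h1 := abs_le.1 (hy k)
    have h2 : r * d ≤ r * (3 / 8) := mul_le_mul_of_nonneg_left hd hr.le
    rw [abs_le]
    constructor <;> linarith [h1.1, h1.2]
  have key : ∃ p q : ℝ, (m t s *ᵥ y) k = y k + (p * y 0 + q * y 1) ∧ |p| + |q| ≤ 1 / 12 := by
    have ht2 : t ^ 2 ≤ 1 / 196 := by nlinarith
    have ht3 : 0 ≤ t ^ 2 := sq_nonneg t
    rcases s with ⟨_ | _, _ | _⟩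
    · fin_cases k
      · refine ⟨0, -t, ?_, ?_⟩
        · simp [m, Matrix.mulVec, dotProduct, Fin.sum_univ_two]
        · rw [abs_zero, abs_neg, abs_of_pos ht0]; linarith
      · refine ⟨-t, t ^ 2, ?_, ?_⟩
        · simp [m, Matrix.mulVec, dotProduct, Fin.sum_univ_two]; ring
        · rw [abs_neg, abs_of_pos ht0, abs_of_nonneg ht3]; linarith
    · fin_cases k
      · refine ⟨t ^ 2, t, ?_, ?_⟩
        · simp [m, Matrix.mulVec, dotProduct, Fin.sum_univ_two]; ring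
        · rw [abs_of_pos ht0, abs_of_nonneg ht3]; linarith
      · refine ⟨t, 0, ?_, ?_⟩
        · simp [m, Matrix.mulVec, dotProduct, Fin.sum_univ_two]; ring
        · rw [abs_zero, abs_of_pos ht0]; linarith
    · fin_cases k
      · refine ⟨t + t ^ 2 / 2, -(t ^ 2 / 2), ?_, ?_⟩
        · simp [m, Matrix.mulVec, dotProduct, Fin.sum_univ_two]; ring
        · rw [abs_neg, abs_of_nonneg (by positivity : 0 ≤ t ^ 2 / 2),
            abs_of_nonneg (by positivity : 0 ≤ t + t ^ 2 / 2)]; linarith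
      · refine ⟨-(t ^ 2 / 2), -(t - t ^ 2 / 2), ?_, ?_⟩
        · simp [m, Matrix.mulVec, dotProduct, Fin.sum_univ_two]; ring
        · rw [abs_neg, abs_neg, abs_of_nonneg (by positivity : 0 ≤ t ^ 2 / 2),
            abs_of_nonneg (by nlinarith : 0 ≤ t - t ^ 2 / 2)]; linarith
    · fin_cases k
      · refine ⟨-(t - t ^ 2 / 2), t ^ 2 / 2, ?_, ?_⟩
        · simp [m, Matrix.mulVec, dotProduct, Fin.sum_univ_two]; ring
        · rw [abs_neg, abs_of_nonneg (by positivity : 0 ≤ t ^ 2 / 2),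
            abs_of_nonneg (by nlinarith : 0 ≤ t - t ^ 2 / 2)]; linarith
      · refine ⟨t ^ 2 / 2, t + t ^ 2 / 2, ?_, ?_⟩
        · simp [m, Matrix.mulVec, dotProduct, Fin.sum_univ_two]; ring
        · rw [abs_of_nonneg (by positivity : 0 ≤ t ^ 2 / 2),
            abs_of_nonneg (by positivity : 0 ≤ t + t ^ 2 / 2)]; linarith
  obtain ⟨p, q, h1, h2⟩ := key
  have h3 := lin_bound p q (y 0) (y 1) r (1 / 12) hr.le (hyr 0) (hyr 1) h2
  rw [h1]
  have h4 : y k + (p * y 0 + q * y 1) - r / 2 = (y k - r / 2) + (p * y 0 + q * y 1) := by ring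
  rw [h4]
  calc |(y k - r / 2) + (p * y 0 + q * y 1)| ≤ |y k - r / 2| + |p * y 0 + q * y 1| := abs_add_le _ _
    _ ≤ r * d + r * (1 / 12) := add_le_add (hy k) h3
    _ = r * (d + 1 / 12) := by ring

theorem words (t : ℝ) (ht0 : 0 < t) (ht : t ≤ 1 / 14) (n : ℕ) (hn : n ≤ 4)
    (g : FreeGroup Bool) (hg : g ∈ W n) (y : Fin 2 → ℝ) (r : ℝ) (hr : 0 < r)
    (hy : ∀ k, |y k - r / 2| ≤ r * (1 / 8)) (k : Fin 2) :
    |((rho t g : Matrix (Fin 2) (Fin 2) ℝ) *ᵥ y) k - r / 2| ≤ r * (1 / 8 + n / 12) := by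
  induction n generalizing g k with
  | zero =>
    have h1 : g = 1 := by simpa [W] using hg
    subst h1
    rw [map_one, Matrix.SpecialLinearGroup.coe_one, Matrix.one_mulVec]
    simpa using hy k
  | succ n ih =>
    obtain ⟨⟨s, g'⟩, hp, rfl⟩ := Finset.mem_image.1 hg
    have hg' := (Finset.mem_product.1 hp).2
    have h1 := ih (by omega) g' hg'
    have h2 : ((rho t (FreeGroup.mk [s] * g') : Matrix.SpecialLinearGroup (Fin 2) ℝ) :
        Matrix (Fin 2) (Fin 2) ℝ) *ᵥ y =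
        m t s *ᵥ ((rho t g' : Matrix (Fin 2) (Fin 2) ℝ) *ᵥ y) := by
      rw [map_mul, Matrix.SpecialLinearGroup.coe_mul, rho_mk, Matrix.mulVec_mulVec]
      simp
    rw [h2]
    have hn' : (n : ℝ) ≤ 3 := by exact_mod_cast (by omega : n ≤ 3)
    have h3 := step t ht0 ht s ((rho t g' : Matrix (Fin 2) (Fin 2) ℝ) *ᵥ y) r (1 / 8 + n / 12) hr
      (by linarith) (fun k => h1 k) k
    refine h3.trans (le_of_eq ?_)
    push_cast; ring

theorem words_mem (t : ℝ) (ht0 : 0 < t) (ht : t ≤ 1 / 14) (n : ℕ) (hn : n = 4)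
    (g : FreeGroup Bool) (hg : g ∈ W n) (y : Fin 2 → ℝ) (r : ℝ) (hr : 0 < r) (hr1 : r < 1)
    (hy : ∀ k, |y k - r / 2| ≤ r * (1 / 8)) :
    (rho t g : Matrix (Fin 2) (Fin 2) ℝ) *ᵥ y ∈ Q := by
  intro k
  have h := abs_le.1 (words t ht0 ht n hn.le g hg y r hr hy k)
  have h5 : (1 / 8 + (n : ℝ) / 12) = 11 / 24 := by rw [hn]; norm_num
  rw [h5] at h
  constructor <;> linarith [h.1, h.2]

/-- The matching condition. -/
theorem matching : ∃ S : Finset (Matrix.SpecialLinearGroup (Fin 2) ℝ),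
    ∀ H : Finset (Fin 2 → ℝ), (∀ x ∈ H, x ∈ Q) →
      ∃ K : Finset (Fin 2 → ℝ), 2 * H.card ≤ K.card ∧ ∀ y ∈ K, y ∈ Q ∧
        ∃ x ∈ H, ∃ σ ∈ S, y = (σ : Matrix (Fin 2) (Fin 2) ℝ) *ᵥ x := by
  classical
  obtain ⟨t, ht0, ht, htr⟩ := exists_param
  obtain ⟨n, hn⟩ : ∃ n : ℕ, n = 4 := ⟨4, rfl⟩
  let act : MulAction (FreeGroup Bool) (Fin 2 → ℝ) :=
    { smul := fun g x => (rho t g : Matrix (Fin 2) (Fin 2) ℝ) *ᵥ x
      one_smul := fun x => by
        show ((rho t 1 : Matrix.SpecialLinearGroup (Fin 2) ℝ) : Matrix (Fin 2) (Fin 2) ℝ) *ᵥ x = x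
        rw [map_one, Matrix.SpecialLinearGroup.coe_one, Matrix.one_mulVec]
      mul_smul := fun g h x => by
        show ((rho t (g * h) : Matrix.SpecialLinearGroup (Fin 2) ℝ) :
          Matrix (Fin 2) (Fin 2) ℝ) *ᵥ x = (rho t g : Matrix (Fin 2) (Fin 2) ℝ) *ᵥ
            ((rho t h : Matrix (Fin 2) (Fin 2) ℝ) *ᵥ x)
        rw [map_mul, Matrix.SpecialLinearGroup.coe_mul, Matrix.mulVec_mulVec] }
  refine ⟨((W n) ×ˢ (Finset.univ : Finset (Fin 17 × Bool))).image fun p => rho t p.1 * gm p.2, ?_⟩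
  intro H hH
  have hch : ∀ x : Fin 2 → ℝ, ∃ i : Fin 17 × Bool, x ∈ Q → ∃ r : ℝ, 0 < r ∧ r < 1 ∧
    ∀ k, |((gm i : Matrix (Fin 2) (Fin 2) ℝ) *ᵥ x) k - r / 2| ≤ r * (1 / 8) := by
    intro x
    by_cases hx : x ∈ Q
    · obtain ⟨i, hi⟩ := gm_spec x hx
      exact ⟨i, fun _ => hi⟩
    · exact ⟨(0, false), fun h => absurd h hx⟩
  choose idx hidx using hch
  let Hi : Fin 17 × Bool → Finset (Fin 2 → ℝ) := fun i =>
    (H.filter fun x => idx x = i).image fun x => (gm i : Matrix (Fin 2) (Fin 2) ℝ) *ᵥ x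
  have hinj : ∀ i, Function.Injective fun x : Fin 2 → ℝ => (gm i : Matrix (Fin 2) (Fin 2) ℝ) *ᵥ x := by
    intro i x y hxy
    have := congrArg (fun z => (((gm i)⁻¹ : Matrix.SpecialLinearGroup (Fin 2) ℝ) :
      Matrix (Fin 2) (Fin 2) ℝ) *ᵥ z) hxy
    beta_reduce at this
    rwa [Matrix.mulVec_mulVec, Matrix.mulVec_mulVec, ← Matrix.SpecialLinearGroup.coe_mul,
      inv_mul_cancel, Matrix.SpecialLinearGroup.coe_one, Matrix.one_mulVec,
      Matrix.one_mulVec] at this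
  have hcard : ∀ i, (Hi i).card = (H.filter fun x => idx x = i).card := fun i =>
    Finset.card_image_of_injective _ (hinj i)
  have hfree : ∀ i, ∀ x ∈ Hi i, FreePt x := by
    intro i x hx g hg
    obtain ⟨z, hz, rfl⟩ := Finset.mem_image.1 hx
    obtain ⟨hzH, hzi⟩ := Finset.mem_filter.1 hz
    obtain ⟨r, hr0, hr1, hr⟩ := hidx z (hH z hzH)
    rw [hzi] at hr
    refine free_action t htr g hg _ ?_
    intro h0
    have := hr 0
    rw [h0] at this
    simp only [Pi.zero_apply, zero_sub, abs_neg] at this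
    rw [abs_of_pos (by linarith)] at this
    linarith
  have hexp : ∀ i, ∃ K : Finset (Fin 2 → ℝ), 3 ^ n * (Hi i).card ≤ K.card ∧
      ∀ y ∈ K, ∃ g ∈ W n, ∃ x ∈ Hi i, y = g • x := fun i => expand' n (Hi i) (hfree i)
  choose Ki hKi hKi2 using hexp
  have hKQ : ∀ i, ∀ y ∈ Ki i, y ∈ Q ∧ ∃ x ∈ H, ∃ σ ∈ ((W n) ×ˢ (Finset.univ :
      Finset (Fin 17 × Bool))).image fun p => rho t p.1 * gm p.2,
        y = (σ : Matrix (Fin 2) (Fin 2) ℝ) *ᵥ x := by
    intro i y hy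
    obtain ⟨g, hg, z, hz, rfl⟩ := hKi2 i y hy
    obtain ⟨x, hx, rfl⟩ := Finset.mem_image.1 hz
    obtain ⟨hxH, hxi⟩ := Finset.mem_filter.1 hx
    obtain ⟨r, hr0, hr1, hr⟩ := hidx x (hH x hxH)
    rw [hxi] at hr
    refine ⟨words_mem t ht0 ht n hn g hg _ r hr0 hr1 hr, x, hxH, rho t g * gm i,
      Finset.mem_image.2 ⟨(g, i), Finset.mem_product.2 ⟨hg, Finset.mem_univ _⟩, rfl⟩, ?_⟩
    rw [Matrix.SpecialLinearGroup.coe_mul, ← Matrix.mulVec_mulVec]
    rfl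
  refine ⟨Finset.univ.biUnion Ki, ?_, ?_⟩
  · have h1 : ∀ i, 81 * (H.filter fun x => idx x = i).card ≤ (Finset.univ.biUnion Ki).card := by
      intro i
      have := hKi i
      rw [hcard] at this
      have h81 : 3 ^ n = 81 := by rw [hn]; norm_num
      rw [h81] at this
      exact this.trans (Finset.card_le_card
        (Finset.subset_biUnion_of_mem Ki (Finset.mem_univ i)))
    have h2 : ∑ i : Fin 17 × Bool, (H.filter fun x => idx x = i).card = H.card :=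
      (Finset.card_eq_sum_card_fiberwise (fun x _ => Finset.mem_univ (idx x))).symm
    have h3 : ∑ i : Fin 17 × Bool, 81 * (H.filter fun x => idx x = i).card ≤
        ∑ _i : Fin 17 × Bool, (Finset.univ.biUnion Ki).card := Finset.sum_le_sum fun i _ => h1 i
    rw [← Finset.mul_sum, h2, Finset.sum_const, Finset.card_univ] at h3
    have h4 : Fintype.card (Fin 17 × Bool) = 34 := rfl
    rw [h4, smul_eq_mul] at h3
    omega
  · intro y hy
    obtain ⟨i, -, hi⟩ := Finset.mem_biUnion.1 hy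
    exact hKQ i y hi

end Pool.Agent.V1121.Sq
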