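import Mathlib

set_option autoImplicit false

namespace Pool.Agent.V1121.Sq

open Matrix Polynomial

abbrev Lt := Bool × Bool

/-- The letter matrices. -/
noncomputable def m (t : ℝ) : Lt → Matrix (Fin 2) (Fin 2) ℝ
  | (false, true) => !![1 + t ^ 2, t; t, 1]
  | (false, false) => !![1, -t; -t, 1 + t ^ 2]
  | (true, true) => !![1 - t + t ^ 2 / 2, t ^ 2 / 2; t ^ 2 / 2, 1 + t + t ^ 2 / 2]
  | (true, false) => !![1 + t + t ^ 2 / 2, -(t ^ 2 / 2); -(t ^ 2 / 2), 1 - t + t ^ 2 / 2]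

/-- The letter matrices in the reversed variable. -/
noncomputable def KP : Lt → Matrix (Fin 2) (Fin 2) ℝ[X]
  | (false, true) => !![X ^ 2 + 1, X; X, X ^ 2]
  | (false, false) => !![X ^ 2, -X; -X, X ^ 2 + 1]
  | (true, true) => !![X ^ 2 - X + C (1 / 2), C (1 / 2); C (1 / 2), X ^ 2 + X + C (1 / 2)]
  | (true, false) => !![X ^ 2 + X + C (1 / 2), -C (1 / 2); -C (1 / 2), X ^ 2 - X + C (1 / 2)]

/-- The leading matrices. -/
noncomputable def Ld : Lt → Matrix (Fin 2) (Fin 2) ℝ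
  | (false, true) => !![1, 0; 0, 0]
  | (false, false) => !![0, 0; 0, 1]
  | (true, true) => !![1 / 2, 1 / 2; 1 / 2, 1 / 2]
  | (true, false) => !![1 / 2, -(1 / 2); -(1 / 2), 1 / 2]

/-- Directions. -/
noncomputable def uu : Lt → (Fin 2 → ℝ)
  | (false, true) => ![1, 0]
  | (false, false) => ![0, 1]
  | (true, true) => ![1, 1]
  | (true, false) => ![1, -1]

theorem m_eq (t : ℝ) (ht : t ≠ 0) (s : Lt) : m t s = t ^ 2 • (KP s).map (eval t⁻¹) := by
  rcases s with ⟨_ | _, _ | _⟩ <;> ext i j <;> fin_cases i <;> fin_cases j <;>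
    simp [m, KP] <;> field_simp

theorem KP_zero (s : Lt) : (KP s).map (eval (0 : ℝ)) = Ld s := by
  rcases s with ⟨_ | _, _ | _⟩ <;> ext i j <;> fin_cases i <;> fin_cases j <;>
    simp [Ld, KP]

/-- The trace polynomial. -/
noncomputable def q (w : List Lt) : ℝ[X] := ((w.map KP).prod).trace

theorem eval_q (u : ℝ) (w : List Lt) :
    eval u (q w) = ((w.map fun s => (KP s).map (eval u)).prod).trace := by
  have h : (w.map fun s => (KP s).map (eval u)).prod =
      (RingHom.mapMatrix (evalRingHom u)) ((w.map KP).prod) := by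
    rw [map_list_prod, List.map_map]
    rfl
  rw [h, q, Matrix.trace_fin_two, Matrix.trace_fin_two, eval_add]
  rfl

theorem Ld_self (s : Lt) : ∃ c : ℝ, c ≠ 0 ∧ Ld s = c • vecMulVec (uu s) (uu s) := by
  rcases s with ⟨_ | _, _ | _⟩
  · exact ⟨1, one_ne_zero, by ext i j; fin_cases i <;> fin_cases j <;> simp [Ld, uu, vecMulVec]⟩
  · exact ⟨1, one_ne_zero, by ext i j; fin_cases i <;> fin_cases j <;> simp [Ld, uu, vecMulVec]⟩
  · exact ⟨1 / 2, by norm_num, by
      ext i j; fin_cases i <;> fin_cases j <;> simp [Ld, uu, vecMulVec]⟩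
  · exact ⟨1 / 2, by norm_num, by
      ext i j; fin_cases i <;> fin_cases j <;> simp [Ld, uu, vecMulVec]⟩

theorem uu_dot (s s' : Lt) (h : s.1 = s'.1 → s.2 = s'.2) : uu s ⬝ᵥ uu s' ≠ 0 := by
  rcases s with ⟨_ | _, _ | _⟩ <;> rcases s' with ⟨_ | _, _ | _⟩ <;> simp at h
  all_goals simp [uu]

theorem Ld_uu (s s' : Lt) (h : s.1 = s'.1 → s.2 = s'.2) :
    ∃ c : ℝ, c ≠ 0 ∧ Ld s *ᵥ uu s' = c • uu s := by
  obtain ⟨c, hc, h1⟩ := Ld_self s
  refine ⟨c * (uu s ⬝ᵥ uu s'), mul_ne_zero hc (uu_dot s s' h), ?_⟩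
  rw [h1]
  ext i
  simp only [Matrix.mulVec, dotProduct, Fin.sum_univ_two, Matrix.smul_apply, vecMulVec,
    Matrix.of_apply, smul_eq_mul, Pi.smul_apply]
  ring

theorem lead : ∀ (l : List Lt) (s : Lt), FreeGroup.IsReduced (s :: l) →
    ∃ c : ℝ, c ≠ 0 ∧ ((s :: l).map Ld).prod =
      c • vecMulVec (uu s) (uu ((s :: l).getLast (List.cons_ne_nil _ _))) := by
  intro l
  induction l with
  | nil =>
    intro s _
    obtain ⟨c, hc, h⟩ := Ld_self s
    exact ⟨c, hc, by simp [h]⟩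
  | cons s' l ih =>
    intro s hs
    have h1 := FreeGroup.isReduced_cons_cons.1 hs
    obtain ⟨c, hc, h⟩ := ih s' h1.2
    obtain ⟨d, hd, h2⟩ := Ld_uu s s' h1.1
    refine ⟨c * d, mul_ne_zero hc hd, ?_⟩
    rw [List.map_cons, List.prod_cons, h, Matrix.mul_smul, Matrix.mul_vecMulVec, h2,
      List.getLast_cons (List.cons_ne_nil _ _), mul_smul]
    congr 1
    ext i j
    simp [vecMulVec, mul_assoc]

theorem q_zero {w : List Lt} (hw : FreeGroup.IsCyclicallyReduced w) (hne : w ≠ []) :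
    eval 0 (q w) ≠ 0 := by
  rw [eval_q]
  simp only [KP_zero]
  obtain ⟨s, l, rfl⟩ := List.exists_cons_of_ne_nil hne
  obtain ⟨c, hc, h⟩ := lead l s hw.1
  rw [h, Matrix.trace_smul, Matrix.trace_vecMulVec, smul_eq_mul]
  refine mul_ne_zero hc (uu_dot _ _ ?_)
  intro h1
  have := hw.2 ((s :: l).getLast (List.cons_ne_nil _ _)) (List.getLast_mem_getLast? _) s (by simp)
  exact (this h1.symm).symm

theorem trace_ne {u : ℝ} (hu : u ≠ 0) (w : List Lt)
    (hr : eval u (q w - C 2 * X ^ (2 * w.length)) ≠ 0) :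
    ((w.map (m u⁻¹)).prod).trace ≠ 2 := by
  have h1 : ∀ w : List Lt, (w.map (m u⁻¹)).prod =
      (u⁻¹) ^ (2 * w.length) • (w.map fun s => (KP s).map (eval u)).prod := by
    intro w
    induction w with
    | nil => simp
    | cons s l ih =>
      rw [List.map_cons, List.prod_cons, ih, m_eq _ (inv_ne_zero hu), inv_inv, List.map_cons,
        List.prod_cons, Matrix.smul_mul, Matrix.mul_smul, smul_smul, List.length_cons]
      congr 1
      ring
  rw [h1, Matrix.trace_smul, ← eval_q, smul_eq_mul]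
  intro h
  apply hr
  rw [eval_sub, eval_mul, eval_C, eval_pow, eval_X]
  have h2 : u ^ (2 * w.length) * u⁻¹ ^ (2 * w.length) = 1 := by
    rw [← mul_pow, mul_inv_cancel₀ hu, one_pow]
  have : eval u (q w) = u ^ (2 * w.length) * (u⁻¹ ^ (2 * w.length) * eval u (q w)) := by
    rw [← mul_assoc, h2, one_mul]
  rw [this, h]; ring

/-- There is a parameter for which no cyclically reduced word has trace two. -/
theorem exists_param : ∃ t : ℝ, 0 < t ∧ t ≤ 1 / 14 ∧
    ∀ w : List Lt, FreeGroup.IsCyclicallyReduced w → w ≠ [] → ((w.map (m t)).prod).trace ≠ 2 := by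
  let Bad : Set ℝ := ⋃ w : {w : List Lt // FreeGroup.IsCyclicallyReduced w ∧ w ≠ []},
    {u | eval u (q w.1 - C 2 * X ^ (2 * w.1.length)) = 0}
  have hBad : Bad.Countable := by
    refine Set.countable_iUnion fun w => Set.Finite.countable ?_
    have hne : q w.1 - C 2 * X ^ (2 * w.1.length) ≠ 0 := by
      intro h
      have := congrArg (eval 0) h
      rw [eval_sub, eval_mul, eval_C, eval_pow, eval_X, eval_zero, zero_pow, mul_zero,
        sub_zero] at this
      · exact q_zero w.2.1 w.2.2 this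
      · have := List.length_pos_of_ne_nil w.2.2
        omega
    exact Polynomial.finite_setOfPred_isRoot hne
  obtain ⟨u, hu, hub⟩ : ∃ u ∈ Set.Ioo (14 : ℝ) 15, u ∉ Bad := by
    by_contra hcon
    push Not at hcon
    have hc : (Set.Ioo (14 : ℝ) 15).Countable := hBad.mono hcon
    have := hc.measure_zero MeasureTheory.volume
    rw [Real.volume_Ioo] at this
    norm_num at this
  have hu0 : (0 : ℝ) < u := by linarith [hu.1]
  refine ⟨u⁻¹, inv_pos.2 hu0, ?_, ?_⟩
  · rw [inv_le_comm₀ hu0 (by norm_num)]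
    have := hu.1
    norm_num
    linarith
  · intro w hw hne
    refine trace_ne hu0.ne' w ?_
    intro h
    exact hub (Set.mem_iUnion.2 ⟨⟨w, hw, hne⟩, h⟩)

/-- The representation of the free group. -/
noncomputable def gen (t : ℝ) (b : Bool) : SpecialLinearGroup (Fin 2) ℝ :=
  ⟨m t (b, true), by cases b <;> simp [m, Matrix.det_fin_two] <;> ring⟩

noncomputable def rho (t : ℝ) : FreeGroup Bool →* SpecialLinearGroup (Fin 2) ℝ :=
  FreeGroup.lift (gen t)

/-- Letters as group elements. -/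
noncomputable def F (t : ℝ) (s : Lt) : SpecialLinearGroup (Fin 2) ℝ :=
  cond s.2 (gen t s.1) (gen t s.1)⁻¹

theorem F_coe (t : ℝ) (s : Lt) : (F t s : Matrix (Fin 2) (Fin 2) ℝ) = m t s := by
  rcases s with ⟨b, _ | _⟩
  · have h : (F t (b, false) : Matrix (Fin 2) (Fin 2) ℝ) = Matrix.adjugate (m t (b, true)) :=
      Matrix.SpecialLinearGroup.coe_inv (gen t b)
    rw [h, Matrix.adjugate_fin_two]
    cases b <;> simp [m]
  · rfl

theorem prod_F (t : ℝ) (w : List Lt) :
    (((w.map (F t)).prod : SpecialLinearGroup (Fin 2) ℝ) : Matrix (Fin 2) (Fin 2) ℝ) =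
      (w.map (m t)).prod := by
  induction w with
  | nil => simp
  | cons s l ih =>
    rw [List.map_cons, List.prod_cons, Matrix.SpecialLinearGroup.coe_mul, ih, List.map_cons,
      List.prod_cons, F_coe]

theorem rho_mk (t : ℝ) (w : List Lt) :
    ((rho t (FreeGroup.mk w) : SpecialLinearGroup (Fin 2) ℝ) : Matrix (Fin 2) (Fin 2) ℝ) =
      (w.map (m t)).prod := by
  rw [← prod_F]
  rfl

/-- The action is free away from the origin. -/
theorem free_action (t : ℝ)
    (ht : ∀ w : List Lt, FreeGroup.IsCyclicallyReduced w → w ≠ [] →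
      ((w.map (m t)).prod).trace ≠ 2)
    (g : FreeGroup Bool) (hg : g ≠ 1) (x : Fin 2 → ℝ) (hx : x ≠ 0) :
    (rho t g : Matrix (Fin 2) (Fin 2) ℝ) *ᵥ x ≠ x := by
  intro hfix
  set l := g.toWord with hl
  have hred : FreeGroup.IsReduced l := FreeGroup.isReduced_toWord
  set w := FreeGroup.reduceCyclically l with hw
  set p := FreeGroup.reduceCyclically.conjugator l with hp
  have hcyc := FreeGroup.reduceCyclically.isCyclicallyReduced hred
  have hconj : p ++ w ++ FreeGroup.invRev p = l :=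
    FreeGroup.reduceCyclically.conj_conjugator_reduceCyclically l
  have hg1 : g = FreeGroup.mk p * FreeGroup.mk w * (FreeGroup.mk p)⁻¹ := by
    rw [FreeGroup.inv_mk, FreeGroup.mul_mk, FreeGroup.mul_mk, hconj, hl, FreeGroup.mk_toWord]
  have hwne : w ≠ [] := by
    intro h
    apply hg
    rw [hg1, h, ← FreeGroup.one_eq_mk, mul_one, mul_inv_cancel]
  set P : SpecialLinearGroup (Fin 2) ℝ := rho t (FreeGroup.mk p) with hP
  set M : SpecialLinearGroup (Fin 2) ℝ := rho t (FreeGroup.mk w) with hM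
  have h1 : (P : Matrix (Fin 2) (Fin 2) ℝ) *ᵥ ((M : Matrix (Fin 2) (Fin 2) ℝ) *ᵥ
      ((P⁻¹ : SpecialLinearGroup (Fin 2) ℝ) : Matrix (Fin 2) (Fin 2) ℝ) *ᵥ x) = x := by
    rw [hg1, map_mul, map_mul, map_inv, Matrix.SpecialLinearGroup.coe_mul,
      Matrix.SpecialLinearGroup.coe_mul] at hfix
    rw [Matrix.mulVec_mulVec, Matrix.mulVec_mulVec]
    exact hfix
  set y := ((P⁻¹ : SpecialLinearGroup (Fin 2) ℝ) : Matrix (Fin 2) (Fin 2) ℝ) *ᵥ x with hy
  have hPP : ∀ z : Fin 2 → ℝ, ((P⁻¹ : SpecialLinearGroup (Fin 2) ℝ) : Matrix (Fin 2) (Fin 2) ℝ) *ᵥ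
      ((P : Matrix (Fin 2) (Fin 2) ℝ) *ᵥ z) = z := by
    intro z
    rw [Matrix.mulVec_mulVec, ← Matrix.SpecialLinearGroup.coe_mul, inv_mul_cancel,
      Matrix.SpecialLinearGroup.coe_one, Matrix.one_mulVec]
  have hPP' : ∀ z : Fin 2 → ℝ, (P : Matrix (Fin 2) (Fin 2) ℝ) *ᵥ
      (((P⁻¹ : SpecialLinearGroup (Fin 2) ℝ) : Matrix (Fin 2) (Fin 2) ℝ) *ᵥ z) = z := by
    intro z
    rw [Matrix.mulVec_mulVec, ← Matrix.SpecialLinearGroup.coe_mul, mul_inv_cancel,
      Matrix.SpecialLinearGroup.coe_one, Matrix.one_mulVec]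
  have h2 : (M : Matrix (Fin 2) (Fin 2) ℝ) *ᵥ y = y := by
    have := congrArg (fun z => ((P⁻¹ : SpecialLinearGroup (Fin 2) ℝ) :
      Matrix (Fin 2) (Fin 2) ℝ) *ᵥ z) h1
    beta_reduce at this
    rwa [hPP] at this
  have hy0 : y ≠ 0 := by
    intro h
    apply hx
    rw [← hPP' x, ← hy, h, Matrix.mulVec_zero]
  have h3 : ((M : Matrix (Fin 2) (Fin 2) ℝ) - 1).det = 0 := by
    rw [← Matrix.exists_mulVec_eq_zero_iff]
    exact ⟨y, hy0, by rw [Matrix.sub_mulVec, h2, Matrix.one_mulVec, sub_self]⟩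
  have h4 : (M : Matrix (Fin 2) (Fin 2) ℝ).trace = 2 := by
    have hd := M.2
    rw [Matrix.det_fin_two] at hd h3
    rw [Matrix.trace_fin_two]
    simp only [Matrix.sub_apply, Matrix.one_apply_eq, ne_eq, Fin.zero_eq_one_iff,
      Nat.succ_ne_self, not_false_eq_true, Matrix.one_apply_ne, sub_zero, one_ne_zero] at h3
    linarith
  rw [hM, rho_mk] at h4
  exact ht w hcyc hwne h4

end Pool.Agent.V1121.Sq
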